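import Mathlib
import Pool.Agent.Y920.QB.Qs2

set_option autoImplicit false

/-! QB-CUT (project QB, helper920): a small substructure of a glued structure. -/

namespace Pool.Agent.Y891.QB

open Pool.Agent.H315R3.ETC Pool.Agent.TH673.VG Pool.Agent.Y920.QB

/-- complements in groups of exponent two -/
theorem compl {G : Type} [CommGroup G] (hexp : ∀ a : G, a * a = 1) (R : Subgroup G) :
    ∃ C : Subgroup G, (∀ x, ∃ r ∈ R, x * r ∈ C) ∧ ∀ x ∈ R, x ∈ C → x = 1 := by
  classical
  let _ : Module (ZMod 2) (Additive G) := AddCommGroup.zmodModule (n := 2) (by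
    intro x
    rw [two_nsmul]
    exact hexp x.toMul)
  have : Fact (Nat.Prime 2) := ⟨Nat.prime_two⟩
  let R' : Submodule (ZMod 2) (Additive G) := AddSubgroup.toZModSubmodule 2 (Subgroup.toAddSubgroup R)
  obtain ⟨C', hC'⟩ := Submodule.exists_isCompl R'
  refine ⟨AddSubgroup.toSubgroup' C'.toAddSubgroup, ?_, ?_⟩
  · intro x
    have h1 : Additive.ofMul x ∈ R' ⊔ C' := by rw [hC'.sup_eq_top]; trivial
    obtain ⟨r, hr, c, hc, hrc⟩ := Submodule.mem_sup.1 h1
    refine ⟨r.toMul, hr, ?_⟩
    show Additive.ofMul (x * r.toMul) ∈ C'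
    have h2 : Additive.ofMul (x * r.toMul) = c := by
      have h3 : r + r = 0 := hexp r.toMul
      have h4 : Additive.ofMul (x * r.toMul) = Additive.ofMul x + r := rfl
      rw [h4, ← hrc, add_comm r c, add_assoc, h3, add_zero]
    rw [h2]
    exact hc
  · intro x hx hxC
    have h1 : Additive.ofMul x ∈ R' ⊓ C' := ⟨hx, hxC⟩
    rw [hC'.inf_eq_bot, Submodule.mem_bot] at h1
    exact h1

section

variable {S : QData} {n : ℕ} {L : Fin n → Subgroup S.G} {B : Subgroup S.G}
  {lam : Fin n → S.G → S.G → ZMod 2} {ψ : (Fin n → ZMod 2) → S.Q}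

/-- the components of the elements -/
structure Cmp (S : QData) {n : ℕ} (L : Fin n → Subgroup S.G) (B : Subgroup S.G)
    (p : S.G → Fin n → S.G) : Prop where
  mem : ∀ x i, p x i ∈ L i
  memB : ∀ x, x * ∏ i, p x i ∈ B
  uniq : ∀ x (q : Fin n → S.G), (∀ i, q i ∈ L i) → x * ∏ i, q i ∈ B → q = p x

theorem exists_cmp (hG : Glue S n L B lam ψ) : ∃ p, Cmp S L B p := by
  choose p hp hpu using hG.dec
  exact ⟨p, fun x => (hp x).1, fun x => (hp x).2, fun x q h1 h2 => hpu x q ⟨h1, h2⟩⟩

theorem q_one (hS : IsQuat S) (a : S.G) : S.q a 1 = S.zero := by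
  have := (hS.qs3 a 1 1).1 rfl
  rwa [one_mul] at this

theorem one_q (hS : IsQuat S) (a : S.G) : S.q 1 a = S.zero := by
  rw [hS.qs2]; exact q_one hS a

theorem q_mul (hS : IsQuat S) {a b c : S.G} (h : S.q a c = S.zero) : S.q a (b * c) = S.q a b := by
  rw [hS.qs3, mul_comm b c, mul_assoc, hS.exp2, mul_one]
  exact h

theorem q_mul0 (hS : IsQuat S) {a b c : S.G} (h : S.q a b = S.zero) (h' : S.q a c = S.zero) :
    S.q a (b * c) = S.zero := by
  rw [q_mul hS h', h]

theorem mul_q (hS : IsQuat S) {a b c : S.G} (h : S.q c a = S.zero) : S.q (b * c) a = S.q b a := by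
  rw [hS.qs2, q_mul hS (by rw [hS.qs2]; exact h), hS.qs2]

theorem q_prod (hS : IsQuat S) {a : S.G} {l : Fin n → S.G} (h : ∀ i, S.q a (l i) = S.zero) :
    S.q a (∏ i, l i) = S.zero := by
  classical
  refine Finset.prod_induction l (fun x => S.q a x = S.zero) (fun x y => q_mul0 hS) (q_one hS a)
    (fun i _ => h i)

namespace Cmp

variable {p : S.G → Fin n → S.G}

theorem mul (hp : Cmp S L B p) (x y : S.G) (i : Fin n) : p (x * y) i = p x i * p y i := by
  have h := hp.uniq (x * y) (fun i => p x i * p y i) (fun i => (L i).mul_mem (hp.mem x i)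
    (hp.mem y i)) (by
      rw [Finset.prod_mul_distrib, mul_mul_mul_comm]
      exact B.mul_mem (hp.memB x) (hp.memB y))
  exact (congrFun h i).symm

theorem ofB (hp : Cmp S L B p) {b : S.G} (hb : b ∈ B) (i : Fin n) : p b i = 1 := by
  have h := hp.uniq b (fun _ => 1) (fun i => (L i).one_mem) (by simpa using hb)
  exact (congrFun h i).symm

theorem ofL (hS : IsQuat S) (hp : Cmp S L B p) {l : Fin n → S.G} (hl : ∀ i, l i ∈ L i)
    (i : Fin n) : p (∏ i, l i) i = l i := by
  have h := hp.uniq (∏ i, l i) l hl (by rw [hS.exp2]; exact B.one_mem)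
  exact (congrFun h i).symm

/-- the part in `B` -/
def bb (p : S.G → Fin n → S.G) (x : S.G) : S.G := x * ∏ i, p x i

theorem bb_mem (hp : Cmp S L B p) (x : S.G) : bb p x ∈ B := hp.memB x

theorem bb_mul (hp : Cmp S L B p) (x y : S.G) : bb p (x * y) = bb p x * bb p y := by
  unfold bb
  simp only [hp.mul]
  rw [Finset.prod_mul_distrib, mul_mul_mul_comm]

theorem bb_ofB (hp : Cmp S L B p) {b : S.G} (hb : b ∈ B) : bb p b = b := by
  unfold bb
  rw [Finset.prod_congr rfl (fun i _ => hp.ofB hb i)]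
  simp

theorem bb_ofL (hS : IsQuat S) (hp : Cmp S L B p) {l : Fin n → S.G} (hl : ∀ i, l i ∈ L i) :
    bb p (∏ i, l i) = 1 := by
  unfold bb
  rw [Finset.prod_congr rfl (fun i _ => hp.ofL hS hl i), hS.exp2]

theorem eq (hS : IsQuat S) (x : S.G) : x = bb p x * ∏ i, p x i := by
  unfold bb
  rw [mul_assoc, hS.exp2, mul_one]

theorem star (hS : IsQuat S) (hG : Glue S n L B lam ψ) (hp : Cmp S L B p) (x y : S.G) :
    S.q x y = S.zero ↔ S.q (bb p x) (bb p y) = ψ (fun i => lam i (p x i) (p y i)) := by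
  have hB : ∀ b ∈ B, ∀ z : S.G, S.q b (∏ i, p z i) = S.zero := by
    intro b hb z
    apply q_prod hS
    intro i
    rw [hS.qs2]
    exact (hG.mem b).1 hb i _ (hp.mem z i)
  have h1 : S.q x (bb p y) = S.q (bb p x) (bb p y) := by
    conv_lhs => rw [eq (p := p) hS x]
    refine mul_q hS ?_
    rw [hS.qs2]
    exact hB _ (hp.bb_mem y) x
  have h2 : S.q x (∏ i, p y i) = ψ (fun i => lam i (p x i) (p y i)) := by
    conv_lhs => rw [eq (p := p) hS x, mul_comm]
    rw [mul_q hS (hB _ (hp.bb_mem x) y)]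
    exact hG.val _ _ (hp.mem x) (hp.mem y)
  rw [← h1, ← h2, hS.qs3, ← eq (p := p) hS y]

end Cmp

theorem lam_one (hS : IsQuat S) (hG : Glue S n L B lam ψ) (i : Fin n) {a : S.G} (ha : a ∈ L i) :
    lam i a 1 = 0 := by
  classical
  have h := hG.val (Function.update (fun _ => 1) i a) (fun _ => 1) (by
    intro j
    by_cases hj : j = i
    · subst hj; rw [Function.update_self]; exact ha
    · rw [Function.update_of_ne hj]; exact (L j).one_mem) (fun j => (L j).one_mem)
  rw [Finset.prod_const_one, q_one hS, ← hG.zero] at h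
  have := congrFun (hG.inj h) i
  rw [Function.update_self] at this
  exact this.symm

theorem lam_symm (hS : IsQuat S) (hG : Glue S n L B lam ψ) (i : Fin n) {a b : S.G} (ha : a ∈ L i)
    (hb : b ∈ L i) : lam i a b = lam i b a := by
  classical
  have hup : ∀ c ∈ L i, ∀ j, Function.update (fun _ => (1 : S.G)) i c j ∈ L j := by
    intro c hc j
    by_cases hj : j = i
    · subst hj; rw [Function.update_self]; exact hc
    · rw [Function.update_of_ne hj]; exact (L j).one_mem
  have h1 := hG.val _ _ (hup a ha) (hup b hb)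
  have h2 := hG.val _ _ (hup b hb) (hup a ha)
  rw [hS.qs2, h2] at h1
  have := congrFun (hG.inj h1) i
  rw [Function.update_self, Function.update_self] at this
  exact this.symm

theorem one_lam (hS : IsQuat S) (hG : Glue S n L B lam ψ) (i : Fin n) {a : S.G} (ha : a ∈ L i) :
    lam i 1 a = 0 := by
  rw [lam_symm hS hG i (L i).one_mem ha]
  exact lam_one hS hG i ha

/-- orthogonality to an element of `L i` -/
theorem q_L (hS : IsQuat S) (hG : Glue S n L B lam ψ) {p : S.G → Fin n → S.G}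
    (hp : Cmp S L B p) (i : Fin n) {a : S.G} (ha : a ∈ L i) (x : S.G) :
    S.q a x = S.zero ↔ lam i a (p x i) = 0 := by
  classical
  have hup : ∀ j, Function.update (fun _ => (1 : S.G)) i a j ∈ L j := by
    intro j
    by_cases hj : j = i
    · subst hj; rw [Function.update_self]; exact ha
    · rw [Function.update_of_ne hj]; exact (L j).one_mem
  have hprod : ∏ j, Function.update (fun _ => (1 : S.G)) i a j = a := by
    rw [Finset.prod_update_of_mem (Finset.mem_univ i)]
    simp
  have hpa : ∀ j, p a j = Function.update (fun _ => (1 : S.G)) i a j := by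
    intro j
    have := hp.ofL hS hup j
    rwa [hprod] at this
  have hba : Cmp.bb p a = 1 := by
    have := hp.bb_ofL hS hup
    rwa [hprod] at this
  rw [hp.star hS hG, hba, one_q hS, ← hG.zero]
  constructor
  · intro h
    have := congrFun (hG.inj h) i
    rw [hpa i, Function.update_self] at this
    exact this.symm
  · intro h
    congr 1
    funext j
    rw [hpa j]
    by_cases hj : j = i
    · subst hj; rw [Function.update_self]; exact h.symm
    · rw [Function.update_of_ne hj]
      exact (one_lam hS hG j (hp.mem x j)).symm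

theorem zmod2_aux : ∀ x y z : ZMod 2, (x = y ↔ z = 0) → z = x + y := by decide

theorem lam_add (hS : IsQuat S) (hG : Glue S n L B lam ψ) {p : S.G → Fin n → S.G}
    (hp : Cmp S L B p) (i : Fin n) {a b c : S.G} (ha : a ∈ L i) (hb : b ∈ L i) (hc : c ∈ L i) :
    lam i a (b * c) = lam i a b + lam i a c := by
  classical
  have hup : ∀ c ∈ L i, ∀ j, Function.update (fun _ => (1 : S.G)) i c j ∈ L j := by
    intro c hc j
    by_cases hj : j = i
    · subst hj; rw [Function.update_self]; exact hc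
    · rw [Function.update_of_ne hj]; exact (L j).one_mem
  have hprod : ∀ a : S.G, ∏ j, Function.update (fun _ => (1 : S.G)) i a j = a := by
    intro a
    rw [Finset.prod_update_of_mem (Finset.mem_univ i)]
    simp
  have hpi : ∀ c ∈ L i, p c i = c := by
    intro c hc
    have := hp.ofL hS (hup c hc) i
    rwa [hprod, Function.update_self] at this
  apply zmod2_aux
  have h1 := q_L hS hG hp i ha (b * c)
  rw [hpi _ ((L i).mul_mem hb hc)] at h1
  rw [← h1, ← hS.qs3]
  have hval : ∀ c ∈ L i, S.q a c = ψ (Function.update (fun _ => 0) i (lam i a c)) := by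
    intro c hc
    have h2 := hG.val _ _ (hup a ha) (hup c hc)
    rw [hprod, hprod] at h2
    rw [h2]
    congr 1
    funext j
    by_cases hj : j = i
    · subst hj; rw [Function.update_self, Function.update_self, Function.update_self]
    · rw [Function.update_of_ne hj, Function.update_of_ne hj, Function.update_of_ne hj]
      exact lam_one hS hG j (L j).one_mem
  rw [hval b hb, hval c hc]
  constructor
  · intro h; rw [h]
  · intro h
    have := congrFun (hG.inj h) i
    rwa [Function.update_self, Function.update_self] at this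

theorem p_L (hS : IsQuat S) {p : S.G → Fin n → S.G}
    (hp : Cmp S L B p) (i : Fin n) {c : S.G} (hc : c ∈ L i) : p c i = c := by
  classical
  have hup : ∀ j, Function.update (fun _ => (1 : S.G)) i c j ∈ L j := by
    intro j
    by_cases hj : j = i
    · subst hj; rw [Function.update_self]; exact hc
    · rw [Function.update_of_ne hj]; exact (L j).one_mem
  have := hp.ofL hS hup i
  rwa [Finset.prod_update_of_mem (Finset.mem_univ i), Function.update_self, Finset.prod_const_one,
    mul_one] at this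

/-- the small subgroup of `L i` -/
structure Sml (S : QData) (Li Ls : Subgroup S.G) (lm : S.G → S.G → ZMod 2) (e : S.G) : Prop where
  le : Ls ≤ Li
  mem : e ∈ Ls
  card : Nat.card Ls ≤ 4
  proj : ∀ x ∈ Li, ∃ y ∈ Ls, ∀ u ∈ Ls, lm u y = lm u x
  ex : ∀ a ∈ Li, a ≠ 1 → ∃ u ∈ Ls, ∃ v ∈ Ls, lm u v = 1

theorem zmod2_ne : ∀ x : ZMod 2, x ≠ 0 → x = 1 := by decide

/-- the subgroup generated by two elements -/
def sub2 (hS : IsQuat S) (u v : S.G) : Subgroup S.G where
  carrier := {1, u, v, u * v}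
  one_mem' := by simp
  mul_mem' := by
    intro a b ha hb
    have e1 := hS.exp2 u
    have e2 := hS.exp2 v
    have e3 : u * (u * v) = v := by rw [← mul_assoc, e1, one_mul]
    have e4 : v * (u * v) = u := by rw [mul_comm u v, ← mul_assoc, e2, one_mul]
    have e5 : u * v * u = v := by rw [mul_comm, e3]
    have e6 : u * v * v = u := by rw [mul_comm, e4]
    have e7 : u * v * (u * v) = 1 := hS.exp2 _
    have e8 : v * u = u * v := mul_comm _ _
    simp only [Set.mem_insert_iff, Set.mem_singleton_iff] at ha hb ⊢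
    rcases ha with rfl | rfl | rfl | rfl <;> rcases hb with rfl | rfl | rfl | rfl <;>
      simp [e1, e2, e3, e4, e5, e6, e7, e8]
  inv_mem' := by
    intro a ha
    have : a⁻¹ = a := inv_eq_of_mul_eq_one_left (hS.exp2 a)
    rw [this]
    exact ha

theorem mem_sub2 (hS : IsQuat S) (u v x : S.G) :
    x ∈ sub2 hS u v ↔ x = 1 ∨ x = u ∨ x = v ∨ x = u * v := Iff.rfl

theorem card_sub2 (hS : IsQuat S) (u v : S.G) : Nat.card (sub2 hS u v) ≤ 4 := by
  classical
  have h1 : ((sub2 hS u v : Set S.G)) = (({1, u, v, u * v} : Finset S.G) : Set S.G) := by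
    ext x
    simp [mem_sub2]
  have h2 : Nat.card (sub2 hS u v) = ({1, u, v, u * v} : Finset S.G).card := by
    rw [← Set.ncard_coe_finset, ← h1]
    rfl
  rw [h2]
  exact Finset.card_le_four

theorem zmod2_cases : ∀ x : ZMod 2, x = 0 ∨ x = 1 := by decide

theorem exists_sml (hS : IsQuat S) (hG : Glue S n L B lam ψ) {p : S.G → Fin n → S.G}
    (hp : Cmp S L B p) (i : Fin n) : ∃ Ls, Sml S (L i) Ls (lam i) (p S.neg i) := by
  classical
  set e := p S.neg i with he
  have heL : e ∈ L i := hp.mem _ i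
  have hadd : ∀ {a b c : S.G}, a ∈ L i → b ∈ L i → c ∈ L i →
      lam i a (b * c) = lam i a b + lam i a c := fun ha hb hc => lam_add hS hG hp i ha hb hc
  have hsymm : ∀ {a b : S.G}, a ∈ L i → b ∈ L i → lam i a b = lam i b a :=
    fun ha hb => lam_symm hS hG i ha hb
  have hadd' : ∀ {a b c : S.G}, a ∈ L i → b ∈ L i → c ∈ L i →
      lam i (b * c) a = lam i b a + lam i c a := by
    intro a b c ha hb hc
    rw [hsymm ((L i).mul_mem hb hc) ha, hadd ha hb hc, hsymm ha hb, hsymm ha hc]
  have hone : ∀ {a : S.G}, a ∈ L i → lam i a 1 = 0 := fun ha => lam_one hS hG i ha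
  have hone' : ∀ {a : S.G}, a ∈ L i → lam i 1 a = 0 := fun ha => one_lam hS hG i ha
  have hself : ∀ {a : S.G}, a ∈ L i → lam i a a = lam i a e := by
    intro a ha
    have h1 := (q_L hS hG hp i ha (S.neg * a)).1 (hS.qs1 a)
    rw [hp.mul, p_L hS hp i ha, hadd ha heL ha] at h1
    have : ∀ x y : ZMod 2, x + y = 0 → y = x := by decide
    exact this _ _ h1
  -- the general case
  have gen : ∀ u ∈ L i, ∀ v ∈ L i, lam i u u = 0 → lam i u v = 1 → (e = 1 ∨ e = u) →
      ∃ Ls, Sml S (L i) Ls (lam i) e := by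
    intro u hu v hv huu huv he1
    have hle : sub2 hS u v ≤ L i := by
      intro x hx
      rw [mem_sub2] at hx
      rcases hx with rfl | rfl | rfl | rfl
      · exact (L i).one_mem
      · exact hu
      · exact hv
      · exact (L i).mul_mem hu hv
    refine ⟨sub2 hS u v, hle, ?_, card_sub2 hS u v, ?_, ?_⟩
    · rw [mem_sub2]
      rcases he1 with h | h
      · exact Or.inl h
      · exact Or.inr (Or.inl h)
    · intro x hx
      -- it is enough to have the right values at `u` and `v`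
      have key : ∀ y ∈ sub2 hS u v, lam i u y = lam i u x → lam i v y = lam i v x →
          ∃ y ∈ sub2 hS u v, ∀ t ∈ sub2 hS u v, lam i t y = lam i t x := by
        intro y hy h1 h2
        refine ⟨y, hy, fun t ht => ?_⟩
        have hyL := hle hy
        rw [mem_sub2] at ht
        rcases ht with rfl | rfl | rfl | rfl
        · rw [hone' hyL, hone' hx]
        · exact h1
        · exact h2
        · rw [hadd' hyL hu hv, hadd' hx hu hv, h1, h2]
      have hvu : lam i v u = 1 := by rw [hsymm hv hu]; exact huv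
      have m1 : (1 : S.G) ∈ sub2 hS u v := (sub2 hS u v).one_mem
      have m2 : u ∈ sub2 hS u v := by rw [mem_sub2]; tauto
      have m3 : v ∈ sub2 hS u v := by rw [mem_sub2]; tauto
      have m4 : u * v ∈ sub2 hS u v := by rw [mem_sub2]; tauto
      have v1 : lam i u (u * v) = 1 := by rw [hadd hu hu hv, huu, huv]; rfl
      rcases zmod2_cases (lam i u x) with hux | hux
      · rcases zmod2_cases (lam i v x) with hvx | hvx
        · exact key 1 m1 (by rw [hone hu, hux]) (by rw [hone hv, hvx])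
        · exact key u m2 (by rw [huu, hux]) (by rw [hvu, hvx])
      · rcases zmod2_cases (lam i v v) with hvv | hvv
        · have v2 : lam i v (u * v) = 1 := by rw [hadd hv hu hv, hvu, hvv]; rfl
          rcases zmod2_cases (lam i v x) with hvx | hvx
          · exact key v m3 (by rw [huv, hux]) (by rw [hvv, hvx])
          · exact key (u * v) m4 (by rw [v1, hux]) (by rw [v2, hvx])
        · have v2 : lam i v (u * v) = 0 := by rw [hadd hv hu hv, hvu, hvv]; rfl
          rcases zmod2_cases (lam i v x) with hvx | hvx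
          · exact key (u * v) m4 (by rw [v1, hux]) (by rw [v2, hvx])
          · exact key v m3 (by rw [huv, hux]) (by rw [hvv, hvx])
    · intro a _ _
      exact ⟨u, by rw [mem_sub2]; tauto, v, by rw [mem_sub2]; tauto, huv⟩
  by_cases h1 : ∀ a ∈ L i, a = 1
  · refine ⟨⊥, bot_le, ?_, ?_, ?_, ?_⟩
    · rw [h1 e heL]; exact Subgroup.one_mem _
    · rw [Subgroup.card_bot]; norm_num
    · intro x hx
      refine ⟨1, Subgroup.one_mem _, fun u _ => ?_⟩
      rw [h1 x hx]
    · intro a ha ha1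
      exact absurd (h1 a ha) ha1
  push Not at h1
  obtain ⟨a, ha, ha1⟩ := h1
  by_cases h2 : e = 1
  · obtain ⟨b, hb, hab⟩ := hG.nondeg i a ha ha1
    refine gen a ha b hb ?_ (zmod2_ne _ hab) (Or.inl h2)
    rw [hself ha, h2, hone ha]
  · rcases zmod2_cases (lam i e e) with h3 | h3
    · obtain ⟨b, hb, hab⟩ := hG.nondeg i e heL h2
      exact gen e heL b hb h3 (zmod2_ne _ hab) (Or.inr rfl)
    · -- the group of order two
      have hle : sub2 hS e e ≤ L i := by
        intro x hx
        rw [mem_sub2] at hx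
        rcases hx with rfl | rfl | rfl | rfl
        · exact (L i).one_mem
        · exact heL
        · exact heL
        · exact (L i).mul_mem heL heL
      have hme : ∀ t ∈ sub2 hS e e, t = 1 ∨ t = e := by
        intro t ht
        rw [mem_sub2, hS.exp2] at ht
        tauto
      refine ⟨sub2 hS e e, hle, by rw [mem_sub2]; tauto, card_sub2 hS e e, ?_, ?_⟩
      · intro x hx
        rcases zmod2_cases (lam i e x) with h4 | h4
        · refine ⟨1, Subgroup.one_mem _, fun t ht => ?_⟩
          rcases hme t ht with rfl | rfl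
          · rw [hone' (L i).one_mem, hone' hx]
          · rw [hone heL, h4]
        · refine ⟨e, by rw [mem_sub2]; tauto, fun t ht => ?_⟩
          rcases hme t ht with rfl | ht
          · rw [hone' heL, hone' hx]
          · rw [ht, h3, h4]
      · intro _ _ _
        exact ⟨e, by rw [mem_sub2]; tauto, e, by rw [mem_sub2]; tauto, h3⟩

theorem Cmp.mk_p (hS : IsQuat S) {p : S.G → Fin n → S.G} (hp : Cmp S L B p) {b : S.G}
    (hb : b ∈ B) {y : Fin n → S.G} (hy : ∀ i, y i ∈ L i) (i : Fin n) :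
    p (b * ∏ i, y i) i = y i := by
  rw [hp.mul, hp.ofB hb, one_mul, hp.ofL hS hy]

theorem Cmp.mk_bb (hS : IsQuat S) {p : S.G → Fin n → S.G} (hp : Cmp S L B p) {b : S.G}
    (hb : b ∈ B) {y : Fin n → S.G} (hy : ∀ i, y i ∈ L i) :
    Cmp.bb p (b * ∏ i, y i) = b := by
  rw [hp.bb_mul, hp.bb_ofB hb, hp.bb_ofL hS hy, mul_one]

/-- the radical -/
def Rad (hS : IsQuat S) : Subgroup S.G where
  carrier := {r | ∀ b, S.q r b = S.zero}
  one_mem' := fun b => one_q hS b
  mul_mem' := by
    intro a b ha hb c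
    rw [hS.qs2]
    exact q_mul0 hS (by rw [hS.qs2]; exact ha c) (by rw [hS.qs2]; exact hb c)
  inv_mem' := by
    intro a ha
    have : a⁻¹ = a := inv_eq_of_mul_eq_one_left (hS.exp2 a)
    rw [this]
    exact ha

theorem mem_Rad (hS : IsQuat S) (r : S.G) : r ∈ Rad hS ↔ ∀ b, S.q r b = S.zero := Iff.rfl

theorem inv_self (hS : IsQuat S) (a : S.G) : a⁻¹ = a := inv_eq_of_mul_eq_one_left (hS.exp2 a)

/-- the subgroup of the small structure -/
def G2 (hS : IsQuat S) {p : S.G → Fin n → S.G} (hp : Cmp S L B p)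
    (Ls : Fin n → Subgroup S.G) (B1 : Subgroup S.G) (r0 : S.G) : Subgroup S.G where
  carrier := {x | (∀ i, p x i ∈ Ls i) ∧ (Cmp.bb p x ∈ B1 ∨ Cmp.bb p x * r0 ∈ B1)}
  one_mem' := by
    refine ⟨fun i => ?_, Or.inl ?_⟩
    · rw [hp.ofB B.one_mem]; exact Subgroup.one_mem _
    · rw [hp.bb_ofB B.one_mem]; exact Subgroup.one_mem _
  mul_mem' := by
    rintro x y ⟨hx1, hx2⟩ ⟨hy1, hy2⟩
    refine ⟨fun i => ?_, ?_⟩
    · rw [hp.mul]; exact Subgroup.mul_mem _ (hx1 i) (hy1 i)
    · rw [hp.bb_mul]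
      rcases hx2 with hx2 | hx2 <;> rcases hy2 with hy2 | hy2
      · exact Or.inl (B1.mul_mem hx2 hy2)
      · right
        rw [mul_assoc]
        exact B1.mul_mem hx2 hy2
      · right
        have : Cmp.bb p x * Cmp.bb p y * r0 = (Cmp.bb p x * r0) * Cmp.bb p y := by
          rw [mul_right_comm]
        rw [this]
        exact B1.mul_mem hx2 hy2
      · left
        have : Cmp.bb p x * Cmp.bb p y = (Cmp.bb p x * r0) * (Cmp.bb p y * r0) := by
          rw [mul_mul_mul_comm, hS.exp2 r0, mul_one]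
        rw [this]
        exact B1.mul_mem hx2 hy2
  inv_mem' := by
    intro x hx
    rw [inv_self hS x]
    exact hx

/-- the structure on a subgroup -/
def sub (S : QData) (H : Subgroup S.G) (hneg : S.neg ∈ H) : QData :=
  ⟨H, S.Q, ⟨S.neg, hneg⟩, fun a b => S.q a b, S.zero⟩

end

theorem t_CUT : Pool.Agent.Y920.QB.S_CUT := by
  intro S hS hfin n M L B lam ψ hG hM
  classical
  obtain ⟨p, hp⟩ := exists_cmp hG
  choose Ls hLs using fun i => exists_sml hS hG hp i
  obtain ⟨C, hC1, hC2⟩ := compl hS.exp2 (Rad hS)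
  have hRB : Rad hS ≤ B := by
    intro r hr
    rw [hG.mem]
    intro i a _
    rw [hS.qs2]
    exact hr a
  set B1 : Subgroup S.G := C ⊓ B with hB1d
  have hB1 : ∀ b ∈ B, ∃ r ∈ Rad hS, b * r ∈ B1 := by
    intro b hb
    obtain ⟨r, hr, hrc⟩ := hC1 b
    exact ⟨r, hr, hrc, B.mul_mem hb (hRB hr)⟩
  have hB1B : B1 ≤ B := inf_le_right
  obtain ⟨r0, hr0, hr0B⟩ := hB1 (Cmp.bb p S.neg) (hp.bb_mem _)
  set H : Subgroup S.G := G2 hS hp Ls B1 r0 with hH
  have memH : ∀ x, x ∈ H ↔ (∀ i, p x i ∈ Ls i) ∧ (Cmp.bb p x ∈ B1 ∨ Cmp.bb p x * r0 ∈ B1) :=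
    fun x => Iff.rfl
  have hneg : S.neg ∈ H := (memH _).2 ⟨fun i => (hLs i).mem, Or.inr hr0B⟩
  have hmk : ∀ b ∈ B1, ∀ y : Fin n → S.G, (∀ i, y i ∈ Ls i) → b * ∏ i, y i ∈ H := by
    intro b hb y hy
    rw [memH, hp.mk_bb hS (hB1B hb) (fun i => (hLs i).le (hy i))]
    refine ⟨fun i => ?_, Or.inl hb⟩
    rw [hp.mk_p hS (hB1B hb) (fun i => (hLs i).le (hy i))]
    exact hy i
  have hqr : ∀ r ∈ Rad hS, ∀ x, S.q x r = S.zero := by
    intro r hr x
    rw [hS.qs2]
    exact hr x
  have hdbl : ∀ x : ZMod 2, x + x = 0 := by decide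
  -- projection to the small structure
  have proj : ∀ x : S.G, ∃ y ∈ H, ∀ a ∈ H, S.q a (x * y) = S.zero := by
    intro x
    obtain ⟨r, hr, hrB⟩ := hB1 _ (hp.bb_mem x)
    choose y hy hy2 using fun i => (hLs i).proj (p x i) (hp.mem x i)
    refine ⟨Cmp.bb p x * r * ∏ i, y i, hmk _ hrB y hy, fun a ha => ?_⟩
    have hyL : ∀ i, y i ∈ L i := fun i => (hLs i).le (hy i)
    rw [hp.star hS hG, hp.bb_mul, hp.mk_bb hS (hB1B hrB) hyL, ← mul_assoc, hS.exp2, one_mul,
      hqr r hr, ← hG.zero]
    congr 1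
    funext i
    rw [hp.mul, hp.mk_p hS (hB1B hrB) hyL,
      lam_add hS hG hp i (hp.mem a i) (hp.mem x i) (hyL i), hy2 i _ (((memH a).1 ha).1 i), hdbl]
    rfl
  set T : QData := sub S H hneg with hT
  have hTq : IsQuat T := by
    refine ⟨fun a => Subtype.ext (hS.exp2 _), fun a => hS.qs1 _, fun a b => hS.qs2 _ _,
      fun a b c => hS.qs3 _ _ _, ?_⟩
    intro a b c d h
    obtain ⟨x, h1, h2⟩ := hS.qs4 (a : H).1 (b : H).1 (c : H).1 (d : H).1 h
    obtain ⟨y, hyH, hy⟩ := proj x
    refine ⟨(⟨y, hyH⟩ : H), ?_, ?_⟩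
    · show S.q (a : H).1 (b : H).1 = S.q (a : H).1 y
      rw [h1, hS.qs3]
      exact hy _ (a : H).2
    · show S.q (c : H).1 (d : H).1 = S.q (c : H).1 y
      rw [h2, hS.qs3]
      exact hy _ (c : H).2
  have hfinH : Finite H := inferInstance
  -- the number of elements
  have hcB1 : Nat.card B1 ≤ M := by
    have h1 : Nat.card (Rad hS × B1) ≤ Nat.card B := by
      refine Nat.card_le_card_of_injective (fun q : Rad hS × B1 =>
        (⟨q.1.1 * q.2.1, B.mul_mem (hRB q.1.2) (hB1B q.2.2)⟩ : B)) ?_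
      rintro ⟨⟨r, hr⟩, ⟨b, hb⟩⟩ ⟨⟨r', hr'⟩, ⟨b', hb'⟩⟩ h
      have h2 : r * b = r' * b' := congrArg Subtype.val h
      have h3 : r * r' = b * b' := by
        have h4 : r * b * (r' * b) = r' * b' * (r' * b) := by rw [h2]
        rw [mul_mul_mul_comm, hS.exp2 b, mul_one, mul_mul_mul_comm, hS.exp2 r', one_mul,
          mul_comm b' b] at h4
        exact h4
      have h5 : r * r' = 1 := hC2 _ ((Rad hS).mul_mem hr hr') (by
        rw [h3]; exact C.mul_mem hb.1 hb'.1)
      have h6 : b * b' = 1 := by rw [← h3, h5]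
      have h7 : r = r' := by
        rw [← inv_self hS r']; exact eq_inv_of_mul_eq_one_left h5
      have h8 : b = b' := by
        rw [← inv_self hS b']; exact eq_inv_of_mul_eq_one_left h6
      subst h7 h8
      rfl
    rw [Nat.card_prod] at h1
    have h2 : radCard S = Nat.card (Rad hS) := rfl
    rw [h2] at hM
    have h3 : 0 < Nat.card (Rad hS) := Nat.card_pos
    have h4 : Nat.card (Rad hS) * Nat.card B1 ≤ Nat.card (Rad hS) * M := by
      rw [mul_comm _ M]
      exact h1.trans hM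
    exact Nat.le_of_mul_le_mul_left h4 h3
  have hcH : Nat.card H ≤ 2 * 4 ^ n * M := by
    let f : H → Bool × B1 × (∀ i, Ls i) := fun x =>
      if h : Cmp.bb p x.1 ∈ B1 then (true, ⟨_, h⟩, fun i => ⟨p x.1 i, ((memH _).1 x.2).1 i⟩)
      else (false, ⟨_, ((memH _).1 x.2).2.resolve_left h⟩,
        fun i => ⟨p x.1 i, ((memH _).1 x.2).1 i⟩)
    have hf : Function.Injective f := by
      intro x y hxy
      have key : Cmp.bb p x.1 = Cmp.bb p y.1 → (∀ i, p x.1 i = p y.1 i) → x = y := by
        intro h1 h2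
        apply Subtype.ext
        rw [Cmp.eq (p := p) hS x.1, Cmp.eq (p := p) hS y.1, h1,
          Finset.prod_congr rfl (fun i _ => h2 i)]
      by_cases hx : Cmp.bb p x.1 ∈ B1 <;> by_cases hy : Cmp.bb p y.1 ∈ B1
      · simp only [f, hx, hy, dif_pos, Prod.mk.injEq, Subtype.mk.injEq, true_and] at hxy
        exact key hxy.1 (fun i => congrArg Subtype.val (congrFun hxy.2 i))
      · simp [f, hx, hy] at hxy
      · simp [f, hx, hy] at hxy
      · simp only [f, hx, hy, dif_neg, not_false_eq_true, Prod.mk.injEq, Subtype.mk.injEq,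
          true_and] at hxy
        exact key (mul_right_cancel hxy.1) (fun i => congrArg Subtype.val (congrFun hxy.2 i))
    have h1 := Nat.card_le_card_of_injective f hf
    have hbool : Nat.card Bool = 2 := by rw [Nat.card_eq_fintype_card, Fintype.card_bool]
    rw [Nat.card_prod, Nat.card_prod, Nat.card_pi, hbool] at h1
    have h2 : ∏ i, Nat.card (Ls i) ≤ 4 ^ n := by
      calc ∏ i, Nat.card (Ls i) ≤ ∏ _i : Fin n, 4 :=
            Finset.prod_le_prod' fun i _ => (hLs i).card
        _ = 4 ^ n := by simp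
    calc Nat.card H ≤ 2 * (Nat.card B1 * ∏ i, Nat.card (Ls i)) := h1
      _ ≤ 2 * (M * 4 ^ n) := Nat.mul_le_mul_left 2 (Nat.mul_le_mul hcB1 h2)
      _ = 2 * 4 ^ n * M := by ring
  -- the subgroup `P`
  let P : Subgroup S.G :=
    { carrier := {x | Cmp.bb p x ∈ Rad hS}
      one_mem' := by
        show Cmp.bb p 1 ∈ Rad hS
        rw [hp.bb_ofB B.one_mem]; exact Subgroup.one_mem _
      mul_mem' := by
        intro x y hx hy
        show Cmp.bb p (x * y) ∈ Rad hS
        rw [hp.bb_mul]; exact Subgroup.mul_mem _ hx hy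
      inv_mem' := by
        intro x hx
        rw [inv_self hS x]; exact hx }
  have memP : ∀ x, x ∈ P ↔ Cmp.bb p x ∈ Rad hS := fun x => Iff.rfl
  have hidx : ∀ i, ∀ a ∈ L i, IndexTwo S a := by
    intro i a ha x y
    rw [q_L hS hG hp i ha, q_L hS hG hp i ha, q_L hS hG hp i ha, hp.mul,
      lam_add hS hG hp i ha (hp.mem x i) (hp.mem y i)]
    have : ∀ x y : ZMod 2, x = 0 ∨ y = 0 ∨ x + y = 0 := by decide
    exact this _ _
  have hidxR : ∀ r ∈ Rad hS, IndexTwo S r := fun r hr x y => Or.inl (hr x)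
  refine ⟨T, hTq, hfinH, hcH, H.subtype, P, ⟨Subtype.coe_injective, rfl, fun a b => Iff.rfl,
    fun a b c d => Iff.rfl⟩, ?_, ?_, ?_, ?_⟩
  · intro x
    obtain ⟨r, hr, hrB⟩ := hB1 _ (hp.bb_mem x)
    have h1 : Cmp.bb p x * r ∈ H := by
      have := hmk _ hrB (fun _ => 1) (fun i => Subgroup.one_mem _)
      simpa using this
    refine ⟨(⟨_, h1⟩ : H), ?_⟩
    show Cmp.bb p (x * (Cmp.bb p x * r)) ∈ Rad hS
    rw [hp.bb_mul, hp.bb_ofB (hB1B hrB), ← mul_assoc, hS.exp2, one_mul]
    exact hr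
  · intro x hx
    rw [memP] at hx
    rw [Cmp.eq (p := p) hS x]
    refine Subgroup.mul_mem _ (Subgroup.subset_closure (hidxR _ hx)) ?_
    exact Subgroup.prod_mem _ fun i _ => Subgroup.subset_closure (hidx i _ (hp.mem x i))
  · intro t ht
    have ht' : Cmp.bb p (t : H).1 ∈ Rad hS := ht
    have htH := (memH _).1 (t : H).2
    -- the parts of `t` in the small group
    have hb : Cmp.bb p (t : H).1 ∈ H := by
      rw [memH]
      refine ⟨fun i => ?_, ?_⟩
      · rw [hp.ofB (hp.bb_mem _)]; exact Subgroup.one_mem _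
      · rw [hp.bb_ofB (hp.bb_mem _)]; exact htH.2
    have hl : ∀ i, p (t : H).1 i ∈ H := by
      intro i
      have h1 := hmk 1 (Subgroup.one_mem _) (Function.update (fun _ => 1) i (p (t : H).1 i)) (by
        intro j
        by_cases hj : j = i
        · subst hj; rw [Function.update_self]; exact htH.1 j
        · rw [Function.update_of_ne hj]; exact Subgroup.one_mem _)
      rwa [Finset.prod_update_of_mem (Finset.mem_univ i), Finset.prod_const_one, mul_one,
        one_mul] at h1
    have heq : (t : H) = (⟨_, hb⟩ : H) * ∏ i, (⟨_, hl i⟩ : H) := by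
      apply Subtype.ext
      rw [Subgroup.coe_mul, Subgroup.val_finsetProd]
      exact Cmp.eq (p := p) hS (t : H).1
    show (t : H) ∈ Subgroup.closure {a : H | IndexTwo T a}
    rw [heq]
    refine Subgroup.mul_mem _ (Subgroup.subset_closure ?_) (Subgroup.prod_mem _ fun i _ =>
      Subgroup.subset_closure ?_)
    · intro x y
      exact hidxR _ ht' (x : H).1 (y : H).1
    · intro x y
      exact hidx i _ (hp.mem _ i) (x : H).1 (y : H).1
  · intro a
    obtain ⟨ra, hra, hraB⟩ := hB1 _ (hp.bb_mem a)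
    have hch : ∀ i, ∃ a' ∈ Ls i, (p a i = 1 ∧ a' = 1) ∨ ∃ v0 ∈ Ls i, lam i a' v0 = 1 := by
      intro i
      by_cases h : p a i = 1
      · exact ⟨1, Subgroup.one_mem _, Or.inl ⟨h, rfl⟩⟩
      · obtain ⟨u, hu, v, hv, huv⟩ := (hLs i).ex _ (hp.mem a i) h
        exact ⟨u, hu, Or.inr ⟨v, hv, huv⟩⟩
    choose a' ha' ha'2 using hch
    have haL : ∀ i, a' i ∈ L i := fun i => (hLs i).le (ha' i)
    refine ⟨(⟨_, hmk _ hraB a' ha'⟩ : H), ?_, ?_⟩
    · show Cmp.bb p (a * (Cmp.bb p a * ra * ∏ i, a' i)) ∈ Rad hS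
      rw [hp.bb_mul, hp.mk_bb hS (hB1B hraB) haL, ← mul_assoc, hS.exp2, one_mul]
      exact hra
    · intro v hv
      obtain ⟨rv, hrv, hrvB⟩ := hB1 _ (hp.bb_mem v)
      have hch2 : ∀ i, ∃ v' ∈ Ls i, lam i (a' i) v' = lam i (p a i) (p v i) := by
        intro i
        rcases ha'2 i with ⟨h1, h2⟩ | ⟨v0, hv0, h1⟩
        · refine ⟨1, Subgroup.one_mem _, ?_⟩
          rw [h2, h1, one_lam hS hG i (L i).one_mem, one_lam hS hG i (hp.mem v i)]
        · rcases zmod2_cases (lam i (p a i) (p v i)) with h2 | h2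
          · exact ⟨1, Subgroup.one_mem _, by rw [h2, lam_one hS hG i (haL i)]⟩
          · exact ⟨v0, hv0, by rw [h2, h1]⟩
      choose v' hv' hv'2 using hch2
      have hvL : ∀ i, v' i ∈ L i := fun i => (hLs i).le (hv' i)
      refine ⟨(⟨_, hmk _ hrvB v' hv'⟩ : H), ?_, ?_⟩
      · show Cmp.bb p (v * (Cmp.bb p v * rv * ∏ i, v' i)) ∈ Rad hS
        rw [hp.bb_mul, hp.mk_bb hS (hB1B hrvB) hvL, ← mul_assoc, hS.exp2, one_mul]
        exact hrv
      · show S.q (Cmp.bb p a * ra * ∏ i, a' i) (Cmp.bb p v * rv * ∏ i, v' i) = S.zero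
        rw [hp.star hS hG, hp.mk_bb hS (hB1B hraB) haL, hp.mk_bb hS (hB1B hrvB) hvL,
          mul_q hS (hra _), q_mul hS (hqr rv hrv _), (hp.star hS hG a v).1 hv]
        congr 1
        funext i
        rw [hp.mk_p hS (hB1B hraB) haL, hp.mk_p hS (hB1B hrvB) hvL, hv'2 i]

end Pool.Agent.Y891.QB
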